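import Mathlib
import Pool.Agent.Y591.VO.Main

set_option autoImplicit false

namespace Pool.Agent.Results.MP_88d2b4_lc.RandomizedAdditive

open Pool.Agent.Results.MP_88d2b4_lc.OracleLowerBound (Star IsSubmodular IsModularSemilattice
  star_modular hard hard_submodular rk rk_eq maxCard maxBits)
open Pool.Agent.Y591.VO
open scoped ENNReal

/-- **Negative answer to Q1, for randomized strategies and minimization up to an additive error of
nearly one third of the largest absolute value.**

`Star` is the modular semilattice with a least element and three pairwise incomparable atoms.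

1. For every `0 ≤ δ < 1 / 3` there is `a > 1` such that for all `n ≥ 1`: if a randomized strategy
   finds, for every submodular `f` on `Star ^ n` with integer values of absolute value at most `n`,
   with probability at least `p` a point `x` with `f x ≤ min f + δ max |f|`, then the expected
   number of its oracle calls on the rank function (a submodular function with minimum `0` at the
   least element) is at least `p a ^ n - 1`.
2. Consequently, for no `δ < 1 / 3` (for instance `δ = 0`, exact minimization) are there randomized
   strategies, one for every product of modular semilattices and depending on it in an arbitrary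
   way, which for every submodular `f` with finite values make an expected number of oracle calls
   polynomial in `n`, `max |L_i|` and the maximum bit length of the values and find with at least
   inverse polynomial probability a point `x` with `f x ≤ min f + δ max |f|`. -/
theorem result :
    IsModularSemilattice Star ∧
    (∀ δ : ℝ, 0 ≤ δ → δ < 1 / 3 → ∃ a : ℝ, 1 < a ∧ ∀ n : ℕ, 0 < n →
      ∀ (D : RandStrategy (Fin n → Star)) (p : ℝ≥0∞),
        (∀ f : (Fin n → Star) → WithTop ℚ, IsSubmodular f →
          (∀ q, ∃ z : ℤ, |z| ≤ n ∧ f q = ((z : ℚ) : WithTop ℚ)) →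
          p ≤ probability D f (NearMin δ f)) →
        p * ENNReal.ofReal (a ^ n) ≤
          expectedCalls D (fun q => ((rk q : ℚ) : WithTop ℚ)) + 1) ∧
    (∀ δ : ℝ, 0 ≤ δ → δ < 1 / 3 →
      ¬ ∃ c : ℕ, ∀ (n : ℕ) (L : Fin n → Type) [∀ i, SemilatticeInf (L i)]
        [∀ i, OrderBot (L i)] [∀ i, Fintype (L i)], (∀ i, IsModularSemilattice (L i)) →
        ∃ D : RandStrategy (∀ i, L i), ∀ f : (∀ i, L i) → WithTop ℚ, (∀ p, f p ≠ ⊤) →
          IsSubmodular f →
          expectedCalls D f ≤ ((c * (n + maxCard L + maxBits f + 1) ^ c : ℕ) : ℝ≥0∞) ∧
          ((c * (n + maxCard L + maxBits f + 1) ^ c : ℕ) : ℝ≥0∞)⁻¹ ≤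
            probability D f (NearMin δ f)) := by
  refine ⟨star_modular, fun δ hδ0 hδ => ?_, fun δ hδ0 hδ => no_polynomial δ hδ0 hδ⟩
  obtain ⟨a, ha, h⟩ := main_bound δ hδ0 hδ
  refine ⟨a, ha, fun n hn D p hD => ?_⟩
  have h1 : (fun q : Fin n → Star => ((rk q : ℚ) : WithTop ℚ)) = hard (fun _ => 0) n := by
    funext q
    rw [hard_ref, rk_eq]
  rw [h1]
  exact h n hn D p (fun P r hr => hD _ (hard_submodular P r) (fun q => ⟨_, fZ_abs P r q hr, rfl⟩))

end Pool.Agent.Results.MP_88d2b4_lc.RandomizedAdditive
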